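import Pool.Agent.H98.FJ.P.Ext0

/-!
# H80 GT, Ring: from fields to commutative rings

If a class of groups with the usual inheritance properties and the extension property contains the solvable groups and
the groups `GL₂(F)` for all fields `F` then it contains `GL₂(R)` for all commutative rings `R` (and all their subgroups).

Proof. (1) The congruence subgroup `K(I)` of a nilpotent ideal is solvable, as `[K(I), K(I)] ≤ K(I²)`. (2) For `R` noetherian
the kernel of `GL₂(R) → ∏ GL₂(Frac(R/p))`, `p` over the finitely many minimal primes, is `K(nilradical)`. (3) `GL₂(R)` is the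
directed union of the groups `GL₂(S)` for the finitely generated subrings `S`.
-/

set_option autoImplicit false

namespace Pool.Agent.H80.GT

open Pool.Agent.H98.FJ
open Matrix (GeneralLinearGroup)

private theorem mem_ker {R S : Type} [CommRing R] [CommRing S] (f : R →+* S) (g : GL (Fin 2) R) :
    g ∈ (GeneralLinearGroup.map (n := Fin 2) f).ker ↔ ∀ i j, f (g i j) = (1 : Matrix (Fin 2) (Fin 2) S) i j := by
  rw [MonoidHom.mem_ker]
  constructor
  · intro h i j
    have := congrArg (fun x : GL (Fin 2) S => (x : Matrix (Fin 2) (Fin 2) S) i j) h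
    simpa using this
  · intro h
    ext i j
    simpa using h i j

/-- the congruence subgroup -/
private def K {R : Type} [CommRing R] (I : Ideal R) : Subgroup (GL (Fin 2) R) :=
  (GeneralLinearGroup.map (n := Fin 2) (Ideal.Quotient.mk I)).ker

private theorem mem_K {R : Type} [CommRing R] (I : Ideal R) (g : GL (Fin 2) R) :
    g ∈ K I ↔ ∀ i j, g i j - (1 : Matrix (Fin 2) (Fin 2) R) i j ∈ I := by
  unfold K
  rw [mem_ker]
  refine forall_congr' fun i => forall_congr' fun j => ?_
  rw [← Ideal.Quotient.mk_eq_mk_iff_sub_mem]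
  have : (Ideal.Quotient.mk I) ((1 : Matrix (Fin 2) (Fin 2) R) i j) =
      (1 : Matrix (Fin 2) (Fin 2) (R ⧸ I)) i j := by
    rw [Matrix.one_apply, Matrix.one_apply]
    split_ifs <;> simp
  rw [this]

private theorem K_mono {R : Type} [CommRing R] {I J : Ideal R} (h : I ≤ J) : K I ≤ K J := fun g hg =>
  (mem_K J g).2 fun i j => h ((mem_K I g).1 hg i j)

private theorem K_comm {R : Type} [CommRing R] (I : Ideal R) {g h : GL (Fin 2) R} (hg : g ∈ K I) (hh : h ∈ K I)
    (i j : Fin 2) : (g * h : GL (Fin 2) R) i j - (h * g : GL (Fin 2) R) i j ∈ I ^ 2 := by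
  obtain ⟨a, ha⟩ : ∃ a : Matrix (Fin 2) (Fin 2) R, a = (g : Matrix (Fin 2) (Fin 2) R) - 1 := ⟨_, rfl⟩
  obtain ⟨b, hb⟩ : ∃ b : Matrix (Fin 2) (Fin 2) R, b = (h : Matrix (Fin 2) (Fin 2) R) - 1 := ⟨_, rfl⟩
  have haI : ∀ i j, a i j ∈ I := fun i j => by
    rw [ha]
    exact (mem_K I g).1 hg i j
  have hbI : ∀ i j, b i j ∈ I := fun i j => by
    rw [hb]
    exact (mem_K I h).1 hh i j
  have hab : (g : Matrix (Fin 2) (Fin 2) R) * h - h * g = a * b - b * a := by
    rw [ha, hb]
    noncomm_ring
  have : (g * h : GL (Fin 2) R) i j - (h * g : GL (Fin 2) R) i j =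
      ((g : Matrix (Fin 2) (Fin 2) R) * h - h * g) i j := by
    simp [Matrix.sub_apply]
  rw [this, hab, Matrix.sub_apply, Matrix.mul_apply, Matrix.mul_apply, pow_two]
  refine sub_mem (sum_mem fun k _ => Ideal.mul_mem_mul (haI _ _) (hbI _ _))
    (sum_mem fun k _ => Ideal.mul_mem_mul (hbI _ _) (haI _ _))

private theorem K_solv {R : Type} [CommRing R] : ∀ (n : ℕ) (I : Ideal R), I ^ (2 ^ n) = ⊥ → Group.IsSolvable (K I)
  | 0, I, h => by
    have hI : I = ⊥ := by simpa using h
    subst hI
    have : Subsingleton (K (⊥ : Ideal R)) := by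
      refine ⟨fun x y => ?_⟩
      have hx : ∀ z : K (⊥ : Ideal R), z = 1 := by
        rintro ⟨z, hz⟩
        apply Subtype.ext
        ext i j
        have := (mem_K _ z).1 hz i j
        rw [Ideal.mem_bot, sub_eq_zero] at this
        simpa using this
      rw [hx x, hx y]
    exact Group.isSolvable_of_comm fun a b => Subsingleton.elim _ _
  | n + 1, I, h => by
    have h2 : Group.IsSolvable (K (I ^ 2)) := K_solv n (I ^ 2) (by rw [← pow_mul, ← pow_succ']; exact h)
    have hle : K (I ^ 2) ≤ K I := K_mono (Ideal.pow_le_self (by norm_num))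
    let q : K I →* GL (Fin 2) (R ⧸ I ^ 2) :=
      (GeneralLinearGroup.map (n := Fin 2) (Ideal.Quotient.mk (I ^ 2))).comp (K I).subtype
    have hq : Group.IsSolvable q.range := by
      refine Group.isSolvable_of_comm ?_
      rintro ⟨_, x, rfl⟩ ⟨_, y, rfl⟩
      apply Subtype.ext
      change q x * q y = q y * q x
      rw [← map_mul, ← map_mul]
      ext i j
      change (Ideal.Quotient.mk (I ^ 2)) ((x.1 * y.1 : GL (Fin 2) R) i j) =
        (Ideal.Quotient.mk (I ^ 2)) ((y.1 * x.1 : GL (Fin 2) R) i j)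
      rw [Ideal.Quotient.mk_eq_mk_iff_sub_mem]
      exact K_comm I x.2 y.2 i j
    refine Group.isSolvable_of_ker_le_range (Subgroup.inclusion hle) q.rangeRestrict ?_
    intro x hx
    rw [MonoidHom.ker_rangeRestrict, MonoidHom.mem_ker] at hx
    exact ⟨⟨x.1, hx⟩, rfl⟩

private theorem nilp_solv {R : Type} [CommRing R] {I : Ideal R} (h : IsNilpotent I) : Group.IsSolvable (K I) := by
  obtain ⟨n, hn⟩ := h
  refine K_solv n I ?_
  have : n ≤ 2 ^ n := Nat.lt_two_pow_self.le
  rw [← le_bot_iff]
  calc I ^ (2 ^ n) ≤ I ^ n := Ideal.pow_le_pow_right this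
    _ = ⊥ := hn

/-- an extension with solvable kernel -/
private theorem ext_solv {C : (G : Type) → [Group G] → Prop} (hC : Inherits C) (hE : Extension C)
    (hsol : ∀ (G : Type) [Group G], IsSolvable G → C G) {G Q : Type} [Group G] [Group Q] (f : G →* Q)
    (hk : Group.IsSolvable f.ker) (hQ : C Q) : C G := by
  refine hE G f.range f.rangeRestrict f.rangeRestrict_surjective (hC.sub _ _ hQ) ?_
  intro V hV
  obtain ⟨v, hv⟩ := hV
  let r : V.comap f.rangeRestrict →* V :=
    (f.rangeRestrict.comp (V.comap f.rangeRestrict).subtype).codRestrict V (fun x => x.2)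
  let H : Subgroup (V.comap f.rangeRestrict) := (Subgroup.zpowers v).comap r
  have hfin : H.FiniteIndex := ⟨by
    rw [Subgroup.index_comap]
    exact (Subgroup.isFiniteRelIndex_of_finiteIndex (H := Subgroup.zpowers v) (K := r.range)).relIndex_ne_zero⟩
  refine hC.index _ H hfin (hsol _ ?_)
  let r' : H →* Subgroup.zpowers v := (r.comp H.subtype).codRestrict (Subgroup.zpowers v) (fun x => x.2)
  have hz : Group.IsSolvable (Subgroup.zpowers v) := Group.isSolvable_of_comm fun a b => by
    apply Subtype.ext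
    obtain ⟨m, hm⟩ := Subgroup.mem_zpowers_iff.1 a.2
    obtain ⟨n, hn⟩ := Subgroup.mem_zpowers_iff.1 b.2
    rw [Subgroup.coe_mul, Subgroup.coe_mul, ← hm, ← hn, ← zpow_add, ← zpow_add, add_comm]
  have hkr : ∀ x : f.ker, f.rangeRestrict x.1 = 1 := fun x => Subtype.ext x.2
  let k : f.ker →* V.comap f.rangeRestrict := f.ker.subtype.codRestrict _ (fun x => by
    rw [Subgroup.mem_comap]
    change f.rangeRestrict x.1 ∈ V
    rw [hkr x]
    exact V.one_mem)
  have hk1 : ∀ x, r (k x) = 1 := fun x => Subtype.ext (hkr x)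
  let k' : f.ker →* H := k.codRestrict _ (fun x => by
    rw [Subgroup.mem_comap, hk1]
    exact Subgroup.one_mem _)
  refine Group.isSolvable_of_ker_le_range k' r' ?_
  rintro ⟨⟨x, hx⟩, hx'⟩ h
  rw [MonoidHom.mem_ker] at h
  have h1 : f x = 1 := by
    have := congrArg (fun y : Subgroup.zpowers v => (y.1.1.1 : Q)) h
    exact this
  exact ⟨⟨x, h1⟩, rfl⟩

private theorem noeth {C : (G : Type) → [Group G] → Prop} (hC : Inherits C) (hE : Extension C)
    (hsol : ∀ (G : Type) [Group G], IsSolvable G → C G) (hF : ∀ (F : Type) [Field F], C (GL (Fin 2) F))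
    (R : Type) [CommRing R] [IsNoetherianRing R] : C (GL (Fin 2) R) := by
  have hp : ∀ p : minimalPrimes R, p.1.IsPrime := fun p => p.2.1.1
  have hfin : Finite (minimalPrimes R) := minimalPrimes.finite_of_isNoetherianRing R
  let φ : ∀ p : minimalPrimes R, R →+* FractionRing (R ⧸ p.1) := fun p =>
    (algebraMap (R ⧸ p.1) (FractionRing (R ⧸ p.1))).comp (Ideal.Quotient.mk p.1)
  have hφ : ∀ p x y, φ p x = φ p y → x - y ∈ p.1 := by
    intro p x y h
    exact (Ideal.Quotient.mk_eq_mk_iff_sub_mem x y).1 (IsFractionRing.injective (R ⧸ p.1) (FractionRing (R ⧸ p.1)) h)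
  have hCF : ∀ p : minimalPrimes R, C (GL (Fin 2) (FractionRing (R ⧸ p.1))) := by
    intro p
    have := hp p
    exact hF (FractionRing (R ⧸ p.1))
  let f : GL (Fin 2) R →* ∀ p : minimalPrimes R, GL (Fin 2) (FractionRing (R ⧸ p.1)) :=
    MonoidHom.pi fun p => GeneralLinearGroup.map (n := Fin 2) (φ p)
  refine ext_solv hC hE hsol f ?_ (hC.pi _ hfin _ hCF)
  have hle : f.ker ≤ K (nilradical R) := by
    intro g hg
    rw [mem_K]
    intro i j
    have hn : nilradical R = sInf (minimalPrimes R) := by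
      rw [nilradical, minimalPrimes, Ideal.sInf_minimalPrimes]
      rfl
    rw [hn, Ideal.mem_sInf]
    intro p hpm
    apply hφ ⟨p, hpm⟩
    have h1 : GeneralLinearGroup.map (n := Fin 2) (φ ⟨p, hpm⟩) g = 1 :=
      congrFun (MonoidHom.mem_ker.1 hg) _
    have h2 := (mem_ker (φ ⟨p, hpm⟩) g).1 (MonoidHom.mem_ker.2 h1) i j
    rw [h2, Matrix.one_apply, Matrix.one_apply]
    split_ifs <;> simp
  have hs : Group.IsSolvable (K (nilradical R)) := nilp_solv (IsNoetherianRing.isNilpotent_nilradical R)
  exact Group.isSolvable_of_isSolvable_injective (Subgroup.inclusion_injective hle)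

/-- From fields to commutative rings. -/
theorem gl_ring {C : (G : Type) → [Group G] → Prop} (hC : Inherits C) (hE : Extension C)
    (hsol : ∀ (G : Type) [Group G], IsSolvable G → C G) (hF : ∀ (F : Type) [Field F], C (GL (Fin 2) F))
    (R : Type) [CommRing R] : C (GL (Fin 2) R) := by
  classical
  let φ : ∀ s : Finset R, GL (Fin 2) (Subring.closure (s : Set R)) →* GL (Fin 2) R := fun s =>
    GeneralLinearGroup.map (n := Fin 2) (Subring.closure (s : Set R)).subtype
  have hφ : ∀ s, Function.Injective (φ s) := by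
    intro s g h hgh
    ext i j
    have := congrArg (fun x : GL (Fin 2) R => (x : Matrix (Fin 2) (Fin 2) R) i j) hgh
    simpa [φ] using this
  have hmem : ∀ (s : Finset R) (g : GL (Fin 2) R), g ∈ (φ s).range ↔
      (∀ i j, g i j ∈ Subring.closure (s : Set R)) ∧ (∀ i j, g⁻¹ i j ∈ Subring.closure (s : Set R)) := by
    intro s g
    constructor
    · rintro ⟨h, rfl⟩
      refine ⟨fun i j => (h i j).2, fun i j => ?_⟩
      rw [← map_inv]
      exact (h⁻¹ i j).2
    · rintro ⟨h1, h2⟩
      let A : Matrix (Fin 2) (Fin 2) (Subring.closure (s : Set R)) := fun i j => ⟨g i j, h1 i j⟩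
      let B : Matrix (Fin 2) (Fin 2) (Subring.closure (s : Set R)) := fun i j => ⟨g⁻¹ i j, h2 i j⟩
      have hAB : A * B = 1 := by
        ext i j
        have h3 : ((g * g⁻¹ : GL (Fin 2) R) : Matrix (Fin 2) (Fin 2) R) i j =
            (1 : Matrix (Fin 2) (Fin 2) R) i j := by rw [mul_inv_cancel]; rfl
        rw [Units.val_mul, Matrix.mul_apply] at h3
        rw [Matrix.mul_apply, AddSubmonoidClass.coe_finsetSum]
        rw [Matrix.one_apply] at h3 ⊢
        split_ifs at h3 ⊢ with h4
        · exact h3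
        · exact h3
      have hBA : B * A = 1 := by
        ext i j
        have h3 : ((g⁻¹ * g : GL (Fin 2) R) : Matrix (Fin 2) (Fin 2) R) i j =
            (1 : Matrix (Fin 2) (Fin 2) R) i j := by rw [inv_mul_cancel]; rfl
        rw [Units.val_mul, Matrix.mul_apply] at h3
        rw [Matrix.mul_apply, AddSubmonoidClass.coe_finsetSum]
        rw [Matrix.one_apply] at h3 ⊢
        split_ifs at h3 ⊢ with h4
        · exact h3
        · exact h3
      refine ⟨⟨A, B, hAB, hBA⟩, ?_⟩
      ext i j
      rfl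
  have hCS : ∀ s : Finset R, C (GL (Fin 2) (Subring.closure (s : Set R))) := by
    intro s
    have : IsNoetherianRing (Subring.closure (s : Set R)) := is_noetherian_subring_closure _ s.finite_toSet
    exact noeth hC hE hsol hF _
  refine hC.union (ι := Finset R) (fun s => (φ s).range) ?_ ?_ ?_
  · intro s t hst g hg
    have hm : Subring.closure (s : Set R) ≤ Subring.closure (t : Set R) :=
      Subring.closure_mono (Finset.coe_subset.2 hst)
    have h := (hmem s g).1 hg
    exact (hmem t g).2 ⟨fun i j => hm (h.1 i j), fun i j => hm (h.2 i j)⟩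
  · intro g
    refine ⟨Finset.univ.image (fun x : Fin 2 × Fin 2 => g x.1 x.2) ∪
      Finset.univ.image (fun x : Fin 2 × Fin 2 => g⁻¹ x.1 x.2), (hmem _ g).2 ⟨fun i j => ?_, fun i j => ?_⟩⟩
    · apply Subring.subset_closure
      rw [Finset.mem_coe, Finset.mem_union]
      exact Or.inl (Finset.mem_image.2 ⟨(i, j), Finset.mem_univ _, rfl⟩)
    · apply Subring.subset_closure
      rw [Finset.mem_coe, Finset.mem_union]
      exact Or.inr (Finset.mem_image.2 ⟨(i, j), Finset.mem_univ _, rfl⟩)
  · intro s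
    exact hC.iso _ _ (MonoidHom.ofInjective (hφ s)) (hCS s)

end Pool.Agent.H80.GT
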